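import Pool.Agent.Q237.LR.Stm2

/-!
# Project LR, job MRK: Markov's inequality
-/

set_option autoImplicit false

namespace Pool.Agent.Q71.LR

open MeasureTheory ProbabilityTheory Set H10PL Pool.Agent.Q237.LR2

theorem mrk (hE : S_EIG) (hM : S_MSR) : S_MRK := by
  intro d T0 κ ρ0 b c K x ρ r η Λ μ T hμ hA hρ0 hρ hr hη hη1 hΛ hT hKr hc hK hq
  haveI := hμ
  obtain ⟨mPL, mSL, -⟩ := hM d T0 κ ρ η Λ x x
  set m : Measure ℝ := volume.restrict (Icc (-(K + 1)) (K + 1)) with hm
  set P : Measure (((Fin d → ℤ) → ℝ) × (Sym2 (Fin d → ℤ) → Bool)) := (PVg d μ).prod (Ps d) with hP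
  have hmE : mE d μ (K + 1) = m.prod P := rfl
  set A : Set (Pt d) := {p | SL T0 κ ρ η Λ x p ≤ (16 / c ^ 2) * η} with hAdef
  have hAm : MeasurableSet A := measurableSet_le mSL measurable_const
  set B0 : Set (Pt d) := {p | ¬ Rs T0 κ ρ η Λ r x p ≤ (c / 4) ^ 2} with hB0def
  set B : Set (Pt d) := toMeasurable (m.prod P) B0 with hBdef
  have hBm : MeasurableSet B := measurableSet_toMeasurable _ _
  have hB0 : B0 ⊆ B := subset_toMeasurable _ _
  have hFm : Measurable fun p : Pt d => ENNReal.ofReal (PL T0 κ ρ η Λ x p) :=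
    ENNReal.measurable_ofReal.comp mPL
  set φ : Pt d → ENNReal := fun p =>
    ENNReal.ofReal (8 / c ^ 2) * A.indicator (fun p => ENNReal.ofReal (PL T0 κ ρ η Λ x p)) p +
      ENNReal.ofReal (1 / (2 * η)) * B.indicator (fun _ => 1) p with hφ
  have hm1 : Measurable fun p : Pt d =>
      ENNReal.ofReal (8 / c ^ 2) * A.indicator (fun p => ENNReal.ofReal (PL T0 κ ρ η Λ x p)) p :=
    (hFm.indicator hAm).const_mul _
  have hm2 : Measurable fun p : Pt d =>
      ENNReal.ofReal (1 / (2 * η)) * B.indicator (fun _ => (1 : ENNReal)) p :=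
    (measurable_const.indicator hBm).const_mul _
  have hφm : Measurable φ := hm1.add hm2
  have hint : ∫⁻ p, φ p ∂(m.prod P) =
      ENNReal.ofReal (8 / c ^ 2) * (∫⁻ p in A, ENNReal.ofReal (PL T0 κ ρ η Λ x p) ∂(m.prod P)) +
      ENNReal.ofReal (1 / (2 * η)) * (m.prod P) B0 := by
    rw [hφ, lintegral_add_left hm1, lintegral_const_mul _ (hFm.indicator hAm),
      lintegral_const_mul _ (measurable_const.indicator hBm), lintegral_indicator hAm,
      lintegral_indicator hBm, setLIntegral_const, one_mul, hBdef, measure_toMeasurable]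
  have hη2 : 0 < 2 * η := by positivity
  have hc2 : 0 < c ^ 2 := by positivity
  have key : ∀ q ∈ Zs T0 κ K c x, 1 ≤ ∫⁻ E, φ (E, q) ∂m := by
    rintro ⟨V, s⟩ ⟨E0, ψ, hE0, hψ, hψ1, hψc⟩
    have hIsub : Icc (E0 - η) (E0 + η) ⊆ Icc (-(K + 1)) (K + 1) := by
      obtain ⟨h1, h2⟩ := abs_le.1 hE0
      refine Icc_subset_Icc ?_ ?_ <;> linarith
    have hlow : ∀ E ∈ Icc (E0 - η) (E0 + η), ENNReal.ofReal (1 / (2 * η)) ≤ φ (E, (V, s)) := by
      intro E hEI
      have hEE : |E - E0| ≤ η := abs_le.2 ⟨by linarith [hEI.1], by linarith [hEI.2]⟩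
      by_cases hR : Rs T0 κ ρ η Λ r x (E, V, s) ≤ (c / 4) ^ 2
      · obtain ⟨h1, h2⟩ := hE d T0 κ ρ0 b s V E E0 c x ρ r T η Λ ψ hA hρ0 hρ hr hη hΛ hT
          (hKr s) hψ hψ1 hc hψc hEE hq hR
        have hmem : ((E, (V, s)) : Pt d) ∈ A := h2
        have h3 : φ (E, (V, s)) = ENNReal.ofReal (8 / c ^ 2) *
            ENNReal.ofReal (PL T0 κ ρ η Λ x (E, (V, s))) +
            ENNReal.ofReal (1 / (2 * η)) * B.indicator (fun _ => 1) (E, (V, s)) := by
          simp only [hφ]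
          rw [indicator_of_mem hmem]
        rw [h3, ← ENNReal.ofReal_mul (by positivity)]
        refine le_trans (ENNReal.ofReal_le_ofReal ?_) le_self_add
        calc 1 / (2 * η) = (8 / c ^ 2) * (c ^ 2 / (16 * η)) := by
              field_simp
              norm_num
          _ ≤ (8 / c ^ 2) * PL T0 κ ρ η Λ x (E, V, s) :=
              mul_le_mul_of_nonneg_left h1 (by positivity)
      · have hmem : ((E, (V, s)) : Pt d) ∈ B := hB0 hR
        have h3 : φ (E, (V, s)) = ENNReal.ofReal (8 / c ^ 2) *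
            A.indicator (fun p => ENNReal.ofReal (PL T0 κ ρ η Λ x p)) (E, (V, s)) +
            ENNReal.ofReal (1 / (2 * η)) := by
          simp only [hφ]
          rw [indicator_of_mem hmem, mul_one]
        rw [h3]
        exact le_add_self
    have hmI : m (Icc (E0 - η) (E0 + η)) = ENNReal.ofReal (2 * η) := by
      rw [hm, Measure.restrict_apply measurableSet_Icc, inter_eq_left.2 hIsub, Real.volume_Icc]
      congr 1
      ring
    calc (1 : ENNReal) = ENNReal.ofReal (1 / (2 * η)) * m (Icc (E0 - η) (E0 + η)) := by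
          rw [hmI, ← ENNReal.ofReal_mul (by positivity), one_div, inv_mul_cancel₀ hη2.ne',
            ENNReal.ofReal_one]
      _ = ∫⁻ _ in Icc (E0 - η) (E0 + η), ENNReal.ofReal (1 / (2 * η)) ∂m := by
          rw [setLIntegral_const]
      _ ≤ ∫⁻ E in Icc (E0 - η) (E0 + η), φ (E, (V, s)) ∂m :=
          setLIntegral_mono' measurableSet_Icc hlow
      _ ≤ ∫⁻ E, φ (E, (V, s)) ∂m := setLIntegral_le_lintegral _ _
  have hmeas : Measurable fun q : ((Fin d → ℤ) → ℝ) × (Sym2 (Fin d → ℤ) → Bool) =>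
      ∫⁻ E, φ (E, q) ∂m := hφm.lintegral_prod_left'
  rw [hmE, ← hint]
  calc P (Zs T0 κ K c x) ≤ P {q | 1 ≤ ∫⁻ E, φ (E, q) ∂m} := measure_mono key
    _ ≤ ∫⁻ q, ∫⁻ E, φ (E, q) ∂m ∂P := by
        have h := mul_meas_ge_le_lintegral (μ := P) hmeas 1
        rwa [one_mul] at h
    _ = ∫⁻ p, φ p ∂(m.prod P) := (lintegral_prod_symm' φ hφm).symm

end Pool.Agent.Q71.LR
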