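import Pool.Agent.Q237.LR.Stm3
import Pool.Agent.Q237.LR.Stm

/-!
# Project LR, job ADJ: nearest neighbour hopping and the power law are admissible
-/

set_option autoImplicit false

namespace Pool.Agent.Q71.LR

open MeasureTheory ProbabilityTheory Set H10PL Pool.Agent.Q237.LR3

lemma adj_single_ne {d : ℕ} (i : Fin d) : (Pi.single i (1 : ℤ) : Fin d → ℤ) ≠ 0 := by
  intro h
  have := congrFun h i
  simp at this

lemma adj_norm_single {d : ℕ} (i : Fin d) : ‖(Pi.single i (1 : ℤ) : Fin d → ℤ)‖ ≤ 1 := by
  rw [pi_norm_le_iff_of_nonneg zero_le_one]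
  intro j
  by_cases h : j = i
  · subst h
    simp
  · simp [Pi.single_eq_of_ne h]

lemma adj_nonneg {d : ℕ} (y w : Fin d → ℤ) : 0 ≤ nn d y w := by
  unfold nn
  refine Finset.sum_nonneg fun i _ => ?_
  split_ifs <;> norm_num

lemma adj_zero {d : ℕ} (y w : Fin d → ℤ) (h1 : ∀ i, w ≠ y + Pi.single i 1)
    (h2 : ∀ i, w ≠ y - Pi.single i 1) : nn d y w = 0 := by
  unfold nn
  refine Finset.sum_eq_zero fun i _ => ?_
  rw [if_neg (h1 i), if_neg (h2 i), add_zero]

theorem adj (hP : Pool.Agent.Q237.LR.S_POW1) : S_ADJ := by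
  intro d α e hd hα
  refine ⟨⟨?_, ?_, ?_, ?_, ?_, ?_, ?_⟩, ?_⟩
  · intro y w
    unfold nn
    refine Finset.sum_congr rfl fun i _ => ?_
    have e1 : (w = y + Pi.single i 1) ↔ (y = w - Pi.single i 1) :=
      ⟨fun h => by rw [h, add_sub_cancel_right], fun h => by rw [h, sub_add_cancel]⟩
    have e2 : (w = y - Pi.single i 1) ↔ (y = w + Pi.single i 1) :=
      ⟨fun h => by rw [h, sub_add_cancel], fun h => by rw [h, add_sub_cancel_right]⟩
    simp only [e1, e2]
    rw [add_comm]
  · intro y
    refine adj_zero y y (fun i h => ?_) (fun i h => ?_)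
    · exact adj_single_ne i (left_eq_add.1 h)
    · have : y + Pi.single i 1 = y := by
        conv_lhs => rw [h]
        exact sub_add_cancel _ _
      exact adj_single_ne i (add_eq_left.1 this)
  · intro y w hyw
    refine adj_zero y w (fun i h => ?_) (fun i h => ?_)
    · have : y - w = - (Pi.single i (1 : ℤ) : Fin d → ℤ) := by rw [h]; abel
      rw [this, norm_neg] at hyw
      exact absurd (adj_norm_single i) (not_le.2 hyw)
    · have : y - w = (Pi.single i (1 : ℤ) : Fin d → ℤ) := by rw [h]; abel
      rw [this] at hyw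
      exact absurd (adj_norm_single i) (not_le.2 hyw)
  · intro y F
    calc ∑ w ∈ F, |nn d y w| = ∑ w ∈ F, nn d y w :=
          Finset.sum_congr rfl fun w _ => abs_of_nonneg (adj_nonneg y w)
      _ = ∑ i : Fin d, ∑ w ∈ F, ((if w = y + Pi.single i 1 then (1 : ℝ) else 0) +
            (if w = y - Pi.single i 1 then 1 else 0)) := by
          unfold nn
          rw [Finset.sum_comm]
      _ ≤ ∑ i : Fin d, (2 : ℝ) := by
          refine Finset.sum_le_sum fun i _ => ?_
          rw [Finset.sum_add_distrib, Finset.sum_ite_eq', Finset.sum_ite_eq']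
          split_ifs <;> norm_num
      _ = 2 * d := by
          rw [Finset.sum_const, Finset.card_univ, Fintype.card_fin, nsmul_eq_mul]
          ring
  · simp [pw]
  · intro y
    unfold pw
    rw [norm_neg]
    simp only [neg_eq_zero]
  · exact (hP d α e hd hα).1
  · intro a y w
    unfold nn
    refine Finset.sum_congr rfl fun i _ => ?_
    have e1 : (w + a = y + a + Pi.single i 1) ↔ (w = y + Pi.single i 1) := by
      rw [add_right_comm y a]
      exact add_left_inj a
    have e2 : (w + a = y + a - Pi.single i 1) ↔ (w = y - Pi.single i 1) := by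
      rw [show y + a - Pi.single i 1 = y - Pi.single i 1 + a by abel]
      exact add_left_inj a
    simp only [e1, e2]

end Pool.Agent.Q71.LR
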