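import Pool.Agent.Q237.LR.Stm2

/-!
# Project LR, job AVG: the three events together
-/

set_option autoImplicit false

namespace Pool.Agent.Q71.LR

open MeasureTheory ProbabilityTheory Set H10PL Pool.Agent.Q237.LR2

section

variable {d : ℕ} {T0 : (Fin d → ℤ) → (Fin d → ℤ) → ℝ} {κ : (Fin d → ℤ) → ℝ} {ρ0 b : ℝ}

lemma avg_PL (ρ η : ℝ) (Λ : Finset (Fin d → ℤ)) (p : Pt d) (i : Λ) :
    PL T0 κ ρ η Λ i p =
      Pm (Am T0 κ ρ Λ p.2.2) (fun i : Λ => p.2.1 i) p.1 η i i := by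
  unfold PL
  rw [dif_pos i.2]

lemma avg_CL (ρ η : ℝ) (Λ : Finset (Fin d → ℤ)) (p : Pt d) (x i : Λ) :
    CL T0 κ ρ η Λ x i p =
      Pm (cut (Am T0 κ ρ Λ p.2.2) x) (fun i : Λ => p.2.1 i) p.1 η i i := by
  unfold CL
  rw [dif_pos x.2, dif_pos i.2]

lemma avg_CL_nonneg (hA : Adm T0 κ ρ0 b) {ρ η : ℝ} (hη : 0 < η) (Λ : Finset (Fin d → ℤ))
    (x y : Fin d → ℤ) (p : Pt d) : 0 ≤ CL T0 κ ρ η Λ x y p := by
  by_cases hx : x ∈ Λ
  · by_cases hy : y ∈ Λ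
    · rw [avg_CL ρ η Λ p ⟨x, hx⟩ ⟨y, hy⟩]
      exact (Pm_diag_pos _ (cut_symm _ (Am_symm hA ρ Λ p.2.2) _) _ _ hη _).le
    · unfold CL
      rw [dif_pos hx, dif_neg hy]
  · unfold CL
    rw [dif_neg hx]

lemma avg_det (hA : Adm T0 κ ρ0 b) {ρ η : ℝ} (hη : 0 < η) (Λ Q : Finset (Fin d → ℤ))
    (hQ : Q ⊆ Λ) (x : Fin d → ℤ) (hx : x ∈ Q) (p : Pt d) :
    ∑ y ∈ Q, PL T0 κ ρ η Λ y p ≤ 2 / η + ∑ y ∈ Q.erase x, CL T0 κ ρ η Λ x y p := by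
  have hxΛ : x ∈ Λ := hQ hx
  set x' : Λ := ⟨x, hxΛ⟩ with hx'
  have h1 : ∑ y ∈ Q, PL T0 κ ρ η Λ y p = ∑ i ∈ Q.subtype (· ∈ Λ), PL T0 κ ρ η Λ i p :=
    (Finset.sum_subtype_of_mem (fun y => PL T0 κ ρ η Λ y p) (fun y hy => hQ hy)).symm
  have h2 : ∑ y ∈ Q.erase x, CL T0 κ ρ η Λ x y p =
      ∑ i ∈ (Q.erase x).subtype (· ∈ Λ), CL T0 κ ρ η Λ x i p :=
    (Finset.sum_subtype_of_mem (fun y => CL T0 κ ρ η Λ x y p)
      (fun y hy => hQ (Finset.mem_of_mem_erase hy))).symm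
  have h3 : (Q.erase x).subtype (· ∈ Λ) = (Q.subtype (· ∈ Λ)).erase x' := by
    ext i
    rw [Finset.mem_subtype, Finset.mem_erase, Finset.mem_erase, Finset.mem_subtype, hx', Ne,
      Ne, Subtype.ext_iff]
  have h4 := Sec.sum_le_X (Am T0 κ ρ Λ p.2.2) (Am_symm hA ρ Λ p.2.2) (Am_diag hA ρ Λ p.2.2) p.1 hη
    (Q.subtype (· ∈ Λ)) x' (Finset.mem_subtype.2 hx) (fun i : Λ => p.2.1 i)
  unfold Sec.X at h4
  rw [h1, h2, h3]
  have h5 : ∑ i ∈ Q.subtype (· ∈ Λ), PL T0 κ ρ η Λ i p = ∑ i ∈ Q.subtype (· ∈ Λ),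
      Pm (Am T0 κ ρ Λ p.2.2) (fun i : Λ => p.2.1 i) p.1 η i i :=
    Finset.sum_congr rfl fun i _ => avg_PL ρ η Λ p i
  have h6 : ∑ i ∈ (Q.subtype (· ∈ Λ)).erase x', CL T0 κ ρ η Λ x i p =
      ∑ i ∈ (Q.subtype (· ∈ Λ)).erase x',
        Pm (cut (Am T0 κ ρ Λ p.2.2) x') (fun i : Λ => p.2.1 i) p.1 η i i :=
    Finset.sum_congr rfl fun i _ => avg_CL ρ η Λ p x' i
  rw [h5, h6]
  exact h4

end

theorem avg (_hM : S_MSR) (hBA : S_BA) (hBB : S_BB) (hBC : S_BC) : S_AVG := by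
  intro d T0 κ ρ0 b ρ η Λ Q μ D K β B M q n0 N F hμ hD hμD hA hη hK hq hQ hβ hη4 hM8 hNF
  set G : (Fin d → ℤ) → Pt d → ENNReal := fun x p => ENNReal.ofReal (PL T0 κ ρ η Λ x p) with hG
  set EA : Set (Pt d) := {p | ∑ y ∈ Q, PL T0 κ ρ η Λ y p < q} with hEA
  set EB : (Fin d → ℤ) → Set (Pt d) := fun x => {p | q / 4 ≤ ∑ y ∈ N x, CL T0 κ ρ η Λ x y p}
    with hEB
  set EC : (Fin d → ℤ) → Set (Pt d) := fun x =>
    {p | q / 4 ≤ ∑ y ∈ F x, CL T0 κ ρ η Λ x y p ∧ SL T0 κ ρ η Λ x p ≤ M * η} with hEC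
  have hq4 : 0 < q / 4 := by positivity
  have hsub : ∀ x ∈ Q, {p : Pt d | SL T0 κ ρ η Λ x p ≤ M * η} ⊆ EA ∪ (EB x ∪ EC x) := by
    intro x hx p hp
    by_cases h1 : p ∈ EA
    · exact Or.inl h1
    right
    by_contra h2
    rw [mem_union, not_or] at h2
    obtain ⟨h2, h3⟩ := h2
    have h1' : q ≤ ∑ y ∈ Q, PL T0 κ ρ η Λ y p := not_lt.1 h1
    have h2' : ∑ y ∈ N x, CL T0 κ ρ η Λ x y p < q / 4 := not_le.1 h2
    have h3' : ∑ y ∈ F x, CL T0 κ ρ η Λ x y p < q / 4 := by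
      by_contra h4
      exact h3 ⟨not_lt.1 h4, hp⟩
    have h5 := avg_det (ρ := ρ) hA hη Λ Q hQ x hx p
    have hcov := (hNF x hx).2.2.2.2.1
    have h6 : ∑ y ∈ Q.erase x, CL T0 κ ρ η Λ x y p ≤
        ∑ y ∈ N x, CL T0 κ ρ η Λ x y p + ∑ y ∈ F x, CL T0 κ ρ η Λ x y p := by
      calc ∑ y ∈ Q.erase x, CL T0 κ ρ η Λ x y p ≤ ∑ y ∈ N x ∪ F x, CL T0 κ ρ η Λ x y p :=
            Finset.sum_le_sum_of_subset_of_nonneg hcov
              (fun y _ _ => avg_CL_nonneg hA hη Λ x y p)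
        _ ≤ ∑ y ∈ N x ∪ F x, CL T0 κ ρ η Λ x y p + ∑ y ∈ N x ∩ F x, CL T0 κ ρ η Λ x y p :=
            le_add_of_nonneg_right (Finset.sum_nonneg fun y _ => avg_CL_nonneg hA hη Λ x y p)
        _ = _ := Finset.sum_union_inter
    have h7 : 2 / η = (4 / η) / 2 := by ring
    linarith
  have hterm : ∀ x ∈ Q, ∫⁻ p in {p | SL T0 κ ρ η Λ x p ≤ M * η}, G x p ∂(mE d μ K) ≤
      ∫⁻ p in EA, G x p ∂(mE d μ K) +
        (ENNReal.ofReal (2 * K * (Real.pi * D) ^ 2 * n0 / (q / 4)) +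
          ENNReal.ofReal (2 * K * Real.pi * D * (16 * B ^ 2 / (η * (q / 4))))) := by
    intro x hx
    obtain ⟨hN1, hF1, hN2, hF2, -, hN3, hF3⟩ := hNF x hx
    refine le_trans (lintegral_mono_set (hsub x hx)) ?_
    refine le_trans (lintegral_union_le _ _ _) ?_
    refine add_le_add le_rfl (le_trans (lintegral_union_le _ _ _) (add_le_add ?_ ?_))
    · refine le_trans (hBB d T0 κ ρ0 b ρ η Λ (N x) μ D K (q / 4) x hμ hD hμD hA hη hK hq4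
        (hN1.trans hQ) (hQ hx) hN2) (ENNReal.ofReal_le_ofReal ?_)
      refine div_le_div_of_nonneg_right (mul_le_mul_of_nonneg_left hN3 ?_) hq4.le
      positivity
    · refine hBC d T0 κ ρ0 b ρ η Λ (F x) μ D K β B M (q / 4) x hμ hD hμD hA hη hK hq4
        (hF1.trans hQ) (hQ hx) hF2 hβ hF3 ?_
      linarith
  have hn0 : 0 ≤ 2 * K * (Real.pi * D) ^ 2 * n0 / (q / 4) ∨ Q = ∅ := by
    rcases Q.eq_empty_or_nonempty with h | ⟨x, hx⟩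
    · exact Or.inr h
    · left
      have h1 : 0 ≤ n0 := le_trans (Nat.cast_nonneg _) (hNF x hx).2.2.2.2.2.1
      positivity
  rcases hn0 with hn0 | hn0
  · have hc0 : 0 ≤ 2 * K * Real.pi * D * (16 * B ^ 2 / (η * (q / 4))) := by positivity
    calc ∑ x ∈ Q, ∫⁻ p in {p | SL T0 κ ρ η Λ x p ≤ M * η}, G x p ∂(mE d μ K) ≤
          ∑ x ∈ Q, (∫⁻ p in EA, G x p ∂(mE d μ K) +
            (ENNReal.ofReal (2 * K * (Real.pi * D) ^ 2 * n0 / (q / 4)) +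
              ENNReal.ofReal (2 * K * Real.pi * D * (16 * B ^ 2 / (η * (q / 4)))))) :=
          Finset.sum_le_sum hterm
      _ = ∑ x ∈ Q, ∫⁻ p in EA, G x p ∂(mE d μ K) + Q.card *
            (ENNReal.ofReal (2 * K * (Real.pi * D) ^ 2 * n0 / (q / 4)) +
              ENNReal.ofReal (2 * K * Real.pi * D * (16 * B ^ 2 / (η * (q / 4))))) := by
          rw [Finset.sum_add_distrib, Finset.sum_const, nsmul_eq_mul]
      _ ≤ ENNReal.ofReal (2 * K * q) + Q.card *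
            (ENNReal.ofReal (2 * K * (Real.pi * D) ^ 2 * n0 / (q / 4)) +
              ENNReal.ofReal (2 * K * Real.pi * D * (16 * B ^ 2 / (η * (q / 4))))) :=
          add_le_add (hBA d T0 κ ρ0 b ρ η Λ Q μ K q hμ hA hη hK hq hQ) le_rfl
      _ = _ := by
          rw [← ENNReal.ofReal_add hn0 hc0, ← ENNReal.ofReal_natCast,
            ← ENNReal.ofReal_mul (Nat.cast_nonneg _), ← ENNReal.ofReal_add (by positivity)
              (mul_nonneg (Nat.cast_nonneg _) (add_nonneg hn0 hc0))]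
          congr 1
          ring
  · rw [hn0, Finset.sum_empty]
    exact bot_le

end Pool.Agent.Q71.LR
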